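import Pool.Agent.R140.NF.Orbit

set_option autoImplicit false
set_option linter.unusedSectionVars false

/-!
# MP_0a7d83_co, Q1: the NF-number of the dumbbell graph `B_{n,m}` is `n + m + 2`
-/

open Finset MvPolynomial

namespace Pool.Agent.Results.MP_0a7d83_co.NFDumbbell

/-- A simplicial complex on `V`: a family of finite subsets closed under taking subsets. -/
@[ext] structure Cpx (V : Type) where
  faces : Set (Finset V)
  down : ∀ ⦃F G : Finset V⦄, F ∈ faces → G ⊆ F → G ∈ faces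

/-- facets: inclusion-maximal faces. -/
def IsFacet {V : Type} (Δ : Cpx V) (F : Finset V) : Prop := Maximal (· ∈ Δ.faces) F

/-- The facet ideal in `K[x_v : v ∈ V]`. -/
noncomputable def facetIdeal (K : Type) [Field K] {V : Type} (Δ : Cpx V) :
    Ideal (MvPolynomial V K) :=
  Ideal.span {p | ∃ F, IsFacet Δ F ∧ p = ∏ v ∈ F, X v}

/-- The NF-complex: the sets `F` whose monomial is not in the facet ideal. -/
noncomputable def nf (K : Type) [Field K] {V : Type} (Δ : Cpx V) : Cpx V where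
  faces := {F | (∏ v ∈ F, X v : MvPolynomial V K) ∉ facetIdeal K Δ}
  down := by
    classical
    intro F G hF hGF hG
    apply hF
    rw [← Finset.prod_sdiff hGF]
    exact Ideal.mul_mem_left _ _ hG

/-- Isomorphism of complexes. -/
def Iso {V W : Type} (Δ : Cpx V) (Γ : Cpx W) : Prop :=
  ∃ π : V ≃ W, ∀ F : Finset V, F ∈ Δ.faces ↔ F.map π.toEmbedding ∈ Γ.faces

/-- A graph regarded as the complex whose facets are its edges. -/
def graphCpx {V : Type} [DecidableEq V] (G : SimpleGraph V) : Cpx V where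
  faces := {F | ∃ u v, G.Adj u v ∧ F ⊆ {u, v}}
  down := by
    rintro F G ⟨u, v, h1, h2⟩ h
    exact ⟨u, v, h1, h.trans h2⟩

/-- The dumbbell graph `B_{n,m}` on `A ⊔ B = Fin n ⊕ Fin m`: all pairs inside `A`, all pairs inside
`B` and the bridge `x₁y₁` (indices start at `0` here). -/
def dumbbell (n m : ℕ) : SimpleGraph (Fin n ⊕ Fin m) where
  Adj u v := match u, v with
    | .inl i, .inl j => i ≠ j
    | .inr i, .inr j => i ≠ j
    | .inl i, .inr j => i.val = 0 ∧ j.val = 0
    | .inr j, .inl i => i.val = 0 ∧ j.val = 0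
  symm := ⟨by
    rintro (i | i) (j | j) h
    · exact fun e => h e.symm
    · exact h
    · exact h
    · exact fun e => h e.symm⟩
  loopless := ⟨by
    rintro (i | i) h
    · exact h rfl
    · exact h rfl⟩

/-! ### The facet ideal and containment of facets -/

section ideal

variable {V : Type}

noncomputable def ex (F : Finset V) : V →₀ ℕ := ∑ v ∈ F, Finsupp.single v 1

theorem prod_eq (K : Type) [Field K] (F : Finset V) :
    (∏ v ∈ F, X v : MvPolynomial V K) = monomial (ex F) 1 := by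
  classical
  unfold ex
  induction F using Finset.induction_on with
  | empty => simp
  | insert a s ha ih =>
    rw [Finset.prod_insert ha, Finset.sum_insert ha, ih, X, monomial_mul, one_mul]

theorem ex_apply [DecidableEq V] (F : Finset V) (w : V) : ex F w = if w ∈ F then 1 else 0 := by
  unfold ex
  rw [Finsupp.finset_sum_apply]
  simp only [Finsupp.single_apply]
  rw [Finset.sum_ite_eq' F w]

theorem ex_le (F G : Finset V) : ex F ≤ ex G ↔ F ⊆ G := by
  classical
  constructor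
  · intro h w hw
    have := h w
    rw [ex_apply, ex_apply, if_pos hw] at this
    by_contra hc
    rw [if_neg hc] at this
    omega
  · intro h w
    rw [ex_apply, ex_apply]
    by_cases hw : w ∈ F
    · rw [if_pos hw, if_pos (h hw)]
    · rw [if_neg hw]; exact Nat.zero_le _

theorem mem_nf (K : Type) [Field K] (Δ : Cpx V) (G : Finset V) :
    G ∈ (nf K Δ).faces ↔ ∀ F, IsFacet Δ F → ¬ F ⊆ G := by
  have h1 : facetIdeal K Δ =
      Ideal.span ((fun s => monomial s (1 : K)) '' (ex '' {F | IsFacet Δ F})) := by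
    unfold facetIdeal
    congr 1
    ext p
    constructor
    · rintro ⟨F, hF, rfl⟩
      exact ⟨ex F, ⟨F, hF, rfl⟩, (prod_eq K F).symm⟩
    · rintro ⟨_, ⟨F, hF, rfl⟩, rfl⟩
      exact ⟨F, hF, (prod_eq K F).symm⟩
  change (∏ v ∈ G, X v : MvPolynomial V K) ∉ facetIdeal K Δ ↔ _
  classical
  rw [h1, prod_eq, mem_ideal_span_monomial_image]
  rw [support_monomial, if_neg (one_ne_zero : (1 : K) ≠ 0)]
  constructor
  · intro h F hF hFG
    apply h
    intro xi hxi
    rw [Finset.mem_singleton] at hxi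
    subst hxi
    exact ⟨ex F, ⟨F, hF, rfl⟩, (ex_le F G).2 hFG⟩
  · intro h hc
    obtain ⟨_, ⟨F, hF, rfl⟩, hle⟩ := hc (ex G) (Finset.mem_singleton_self _)
    exact h F hF ((ex_le F G).1 hle)

end ideal

/-! ### The orbit -/

open Pool.Agent.R140.NF

section orbit

variable {V : Type} [Fintype V] [DecidableEq V] {A B : Finset V} {x y : V}

theorem step {K : Type} [Field K] {Δ : Cpx V} {P Q : Finset V → Prop}
    (h1 : ∀ F, F ∈ Δ.faces ↔ P F) (h2 : ∀ G, dl P G ↔ Q G) :
    ∀ G, G ∈ (nf K Δ).faces ↔ Q G := by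
  intro G
  rw [mem_nf, ← h2]
  have : (fun F => F ∈ Δ.faces) = P := funext fun F => propext (h1 F)
  unfold IsFacet dl
  rw [this]

theorem orbit_D (K : Type) [Field K] (h : Hyp A B x y) {Δ : Cpx V}
    (h0 : ∀ F, F ∈ Δ.faces ↔ I0 A B x y F) (hV : 5 ≤ Fintype.card V) (k : ℕ)
    (hk : k + 4 ≤ Fintype.card V) :
    ∀ F, F ∈ ((nf K)^[k + 5] Δ).faces ↔ D A B x y (Fintype.card V - 3 - k) F := by
  induction k with
  | zero =>
    have s1 : ∀ F, F ∈ ((nf K)^[1] Δ).faces ↔ I1 A B x y F := step h0 (dl_I0 h)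
    have s2 : ∀ F, F ∈ ((nf K)^[2] Δ).faces ↔ I2 A B x y F := by
      rw [Function.iterate_succ_apply']; exact step s1 (dl_I1 h)
    have s3 : ∀ F, F ∈ ((nf K)^[3] Δ).faces ↔ I3 A B x y F := by
      rw [Function.iterate_succ_apply']; exact step s2 (dl_I2 h)
    have s4 : ∀ F, F ∈ ((nf K)^[4] Δ).faces ↔ I4 A B x y F := by
      rw [Function.iterate_succ_apply']; exact step s3 (dl_I3 h)
    rw [Function.iterate_succ_apply']
    exact step s4 (dl_I4 h (by omega))
  | succ k ih =>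
    have h1 := ih (by omega)
    have h2 : Fintype.card V - 3 - k = (Fintype.card V - 3 - (k + 1)) + 1 := by omega
    rw [h2] at h1
    rw [show k + 1 + 5 = (k + 5) + 1 by ring, Function.iterate_succ_apply']
    exact step h1 (dl_D h (by omega) (by omega))

theorem orbit_final (K : Type) [Field K] (h : Hyp A B x y) {Δ : Cpx V}
    (h0 : ∀ F, F ∈ Δ.faces ↔ I0 A B x y F) (hV : 5 ≤ Fintype.card V) :
    ∀ F, F ∈ ((nf K)^[Fintype.card V + 2] Δ).faces ↔ I0 A B x y F := by
  have h1 := orbit_D K h h0 hV (Fintype.card V - 4) (by omega)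
  rw [show Fintype.card V - 3 - (Fintype.card V - 4) = 1 by omega] at h1
  rw [show Fintype.card V + 2 = (Fintype.card V - 4 + 5) + 1 by omega,
    Function.iterate_succ_apply']
  exact step h1 (dl_D_one h hV)

/-- intermediate complexes have a face with three elements -/
theorem card_three (K : Type) [Field K] (h : Hyp A B x y) {Δ : Cpx V}
    (h0 : ∀ F, F ∈ Δ.faces ↔ I0 A B x y F) (hV : 5 ≤ Fintype.card V) (k : ℕ)
    (hk2 : 2 ≤ k) (hk : k ≤ Fintype.card V + 1) :
    ∃ T ∈ ((nf K)^[k] Δ).faces, T.card = 3 := by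
  have s1 : ∀ F, F ∈ ((nf K)^[1] Δ).faces ↔ I1 A B x y F := step h0 (dl_I0 h)
  have s2 : ∀ F, F ∈ ((nf K)^[2] Δ).faces ↔ I2 A B x y F := by
    rw [Function.iterate_succ_apply']; exact step s1 (dl_I1 h)
  have s3 : ∀ F, F ∈ ((nf K)^[3] Δ).faces ↔ I3 A B x y F := by
    rw [Function.iterate_succ_apply']; exact step s2 (dl_I2 h)
  have s4 : ∀ F, F ∈ ((nf K)^[4] Δ).faces ↔ I4 A B x y F := by
    rw [Function.iterate_succ_apply']; exact step s3 (dl_I3 h)
  have hxy : x ≠ y := fun e => h.notB h.hx (e ▸ h.hy)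
  have hcard := h.card
  -- a pure triple
  have hT : ∃ T : Finset V, T.card = 3 ∧ (T ⊆ A ∨ T ⊆ B) := by
    rcases Nat.lt_or_ge A.card 3 with hA | hA
    · obtain ⟨T, hT, hTc⟩ := exists_subset_card_eq (n := 3) (s := B) (by omega)
      exact ⟨T, hTc, Or.inr hT⟩
    · obtain ⟨T, hT, hTc⟩ := exists_subset_card_eq (n := 3) (s := A) hA
      exact ⟨T, hTc, Or.inl hT⟩
  -- a triple avoiding `x` and `y`
  have hU : ∃ T : Finset V, T.card = 3 ∧ x ∉ T ∧ y ∉ T := by
    have h1 : 3 ≤ (({x, y} : Finset V)ᶜ).card := by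
      rw [card_compl, card_pair hxy]; omega
    obtain ⟨T, hT, hTc⟩ := exists_subset_card_eq h1
    refine ⟨T, hTc, ?_, ?_⟩
    · intro hx
      have := hT hx
      simp at this
    · intro hx
      have := hT hx
      simp at this
  obtain ⟨T, hTc, hTp⟩ := hT
  obtain ⟨U, hUc, hUx, hUy⟩ := hU
  have hAU : ¬ A ⊆ U := fun hc => hUx (hc h.hx)
  have hBU : ¬ B ⊆ U := fun hc => hUy (hc h.hy)
  have hcases : k = 2 ∨ k = 3 ∨ k = 4 ∨ ∃ j, k = j + 5 := by
    rcases Nat.lt_or_ge k 5 with h5 | h5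
    · omega
    · right; right; right; exact ⟨k - 5, by omega⟩
  rcases hcases with rfl | rfl | rfl | ⟨j, rfl⟩
  · refine ⟨T, (s2 T).2 ?_, hTc⟩
    rcases hTp with hTp | hTp
    · exact Or.inl hTp
    · exact Or.inr (Or.inl hTp)
  · exact ⟨U, (s3 U).2 ⟨hAU, hBU, fun hc => hUx hc.1⟩, hUc⟩
  · obtain ⟨P, hP, hPc⟩ := exists_subset_card_eq (n := 2) (s := A) h.hA
    have h1 := (s4 _).2 (pureA_facet_I4 h hPc hP).1
    have h2 : 3 ≤ (Pᶜ).card := by rw [card_compl, hPc]; omega
    obtain ⟨Q, hQ, hQc⟩ := exists_subset_card_eq h2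
    exact ⟨Q, Cpx.down _ h1 hQ, hQc⟩
  · have hD := orbit_D K h h0 hV j (by omega)
    rcases Nat.lt_or_ge (Fintype.card V - 3 - j) 2 with hs | hs
    · refine ⟨T, (hD T).2 (Or.inr (Or.inr ⟨by omega, hTp⟩)), hTc⟩
    · refine ⟨U, (hD U).2 ?_, hUc⟩
      rcases Nat.lt_or_ge (Fintype.card V - 3 - j) 3 with hs3 | hs3
      · exact Or.inr (Or.inl ⟨by omega, fun hc => hUx hc.1, hAU, hBU⟩)
      · exact Or.inl (by omega)

theorem not_iso (K : Type) [Field K] (h : Hyp A B x y) {Δ : Cpx V}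
    (h0 : ∀ F, F ∈ Δ.faces ↔ I0 A B x y F) (hV : 5 ≤ Fintype.card V) (k : ℕ)
    (hk1 : 1 ≤ k) (hk : k ≤ Fintype.card V + 1) : ¬ Iso ((nf K)^[k] Δ) Δ := by
  have hxy : x ≠ y := fun e => h.notB h.hx (e ▸ h.hy)
  have hcard := h.card
  rintro ⟨π, hπ⟩
  rcases Nat.lt_or_ge k 2 with hk2 | hk2
  · obtain rfl : k = 1 := by omega
    have s1 : ∀ F, F ∈ ((nf K)^[1] Δ).faces ↔ I1 A B x y F := step h0 (dl_I0 h)
    have hT : ∃ T : Finset V, T.card = 3 ∧ (T ⊆ A ∨ T ⊆ B) := by
      rcases Nat.lt_or_ge A.card 3 with hA | hA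
      · obtain ⟨T, hT, hTc⟩ := exists_subset_card_eq (n := 3) (s := B) (by omega)
        exact ⟨T, hTc, Or.inr hT⟩
      · obtain ⟨T, hT, hTc⟩ := exists_subset_card_eq (n := 3) (s := A) hA
        exact ⟨T, hTc, Or.inl hT⟩
    obtain ⟨T, hTc, hTp⟩ := hT
    have key : ∀ P : Finset V, P ⊆ T.map π.symm.toEmbedding → P.card = 2 →
        (P ∩ A).card ≤ 1 ∧ (P ∩ B).card ≤ 1 := by
      intro P hP hPc
      have h1 : P.map π.toEmbedding ∈ Δ.faces := by
        rw [h0]
        refine Or.inr (Or.inl ⟨by rw [card_map, hPc], ?_⟩)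
        have h2 : P.map π.toEmbedding ⊆ T := by
          intro v hv
          rw [mem_map] at hv
          obtain ⟨w, hw, rfl⟩ := hv
          have := hP hw
          rw [mem_map] at this
          obtain ⟨z, hz, rfl⟩ := this
          simpa using hz
        rcases hTp with hTp | hTp
        · exact Or.inl (h2.trans hTp)
        · exact Or.inr (h2.trans hTp)
      have h2 := (s1 P).1 ((hπ P).2 h1)
      exact ⟨h2.1, h2.2.1⟩
    have hsp := card_split h (T.map π.symm.toEmbedding)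
    rw [card_map, hTc] at hsp
    rcases Nat.lt_or_ge (T.map π.symm.toEmbedding ∩ A).card 2 with h1 | h1
    · obtain ⟨P, hP, hPc⟩ := exists_subset_card_eq (n := 2)
        (s := T.map π.symm.toEmbedding ∩ B) (by omega)
      have h2 := (key P (hP.trans inter_subset_left) hPc).2
      rw [inter_eq_left.2 (hP.trans inter_subset_right)] at h2
      omega
    · obtain ⟨P, hP, hPc⟩ := exists_subset_card_eq (n := 2)
        (s := T.map π.symm.toEmbedding ∩ A) (by omega)
      have h2 := (key P (hP.trans inter_subset_left) hPc).1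
      rw [inter_eq_left.2 (hP.trans inter_subset_right)] at h2
      omega
  · obtain ⟨T, hT, hTc⟩ := card_three K h h0 hV k hk2 hk
    have h1 := (h0 _).1 ((hπ T).1 hT)
    have h2 : (T.map π.toEmbedding).card = 3 := by rw [card_map, hTc]
    rcases h1 with h1 | h1 | h1
    · omega
    · omega
    · rw [h1, card_pair hxy] at h2
      omega

theorem isLeast_of_I0 (K : Type) [Field K] (h : Hyp A B x y) {Δ : Cpx V}
    (h0 : ∀ F, F ∈ Δ.faces ↔ I0 A B x y F) (hV : 5 ≤ Fintype.card V) :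
    IsLeast {q : ℕ | 0 < q ∧ Iso ((nf K)^[q] Δ) Δ} (Fintype.card V + 2) := by
  refine ⟨⟨by omega, Equiv.refl V, ?_⟩, ?_⟩
  · intro F
    rw [orbit_final K h h0 hV F]
    have : F.map (Equiv.refl V).toEmbedding = F := by
      ext v; simp
    rw [this, h0]
  · rintro q ⟨hq, hiso⟩
    by_contra hc
    push Not at hc
    exact not_iso K h h0 hV q hq (by omega) hiso

end orbit

/-! ### The dumbbell graph -/

section dumb

variable (n m : ℕ)

def sA : Finset (Fin n ⊕ Fin m) := univ.map Function.Embedding.inl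
def sB : Finset (Fin n ⊕ Fin m) := univ.map Function.Embedding.inr

theorem inl_mem_sA (i : Fin n) : (Sum.inl i : Fin n ⊕ Fin m) ∈ sA n m := by simp [sA]
theorem inr_mem_sB (i : Fin m) : (Sum.inr i : Fin n ⊕ Fin m) ∈ sB n m := by simp [sB]
theorem inr_notMem_sA (i : Fin m) : (Sum.inr i : Fin n ⊕ Fin m) ∉ sA n m := by simp [sA]
theorem inl_notMem_sB (i : Fin n) : (Sum.inl i : Fin n ⊕ Fin m) ∉ sB n m := by simp [sB]

theorem hyp_dumbbell (hn : 2 ≤ n) (hm : 2 ≤ m) :
    Hyp (sA n m) (sB n m) (Sum.inl ⟨0, by omega⟩) (Sum.inr ⟨0, by omega⟩) := by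
  refine ⟨?_, ?_, inl_mem_sA _ _ _, inr_mem_sB _ _ _, ?_, ?_⟩
  · rw [Finset.disjoint_left]
    rintro (i | i) h
    · exact inl_notMem_sB _ _ _
    · exact absurd h (inr_notMem_sA _ _ _)
  · rw [eq_univ_iff_forall]
    rintro (i | i)
    · exact mem_union_left _ (inl_mem_sA _ _ _)
    · exact mem_union_right _ (inr_mem_sB _ _ _)
  · rw [sA, card_map, card_univ, Fintype.card_fin]; exact hn
  · rw [sB, card_map, card_univ, Fintype.card_fin]; exact hm

theorem dumbbell_I0 (hn : 2 ≤ n) (hm : 2 ≤ m) (F : Finset (Fin n ⊕ Fin m)) :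
    F ∈ (graphCpx (dumbbell n m)).faces ↔
      I0 (sA n m) (sB n m) (Sum.inl ⟨0, by omega⟩) (Sum.inr ⟨0, by omega⟩) F := by
  have h := hyp_dumbbell n m hn hm
  have adjA : ∀ u ∈ sA n m, ∀ v ∈ sA n m, u ≠ v → (dumbbell n m).Adj u v := by
    rintro (i | i) hu (j | j) hv huv
    · exact fun e => huv (by rw [e])
    · exact absurd hv (inr_notMem_sA _ _ _)
    · exact absurd hu (inr_notMem_sA _ _ _)
    · exact absurd hu (inr_notMem_sA _ _ _)
  have adjB : ∀ u ∈ sB n m, ∀ v ∈ sB n m, u ≠ v → (dumbbell n m).Adj u v := by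
    rintro (i | i) hu (j | j) hv huv
    · exact absurd hu (inl_notMem_sB _ _ _)
    · exact absurd hu (inl_notMem_sB _ _ _)
    · exact absurd hv (inl_notMem_sB _ _ _)
    · exact fun e => huv (by rw [e])
  have pairs : ∀ (u v : Fin n ⊕ Fin m) (C : Finset (Fin n ⊕ Fin m)), u ∈ C → v ∈ C →
      ({u, v} : Finset (Fin n ⊕ Fin m)) ⊆ C := by
    intro u v C hu hv w hw
    rw [mem_insert, mem_singleton] at hw
    rcases hw with rfl | rfl
    · exact hu
    · exact hv
  constructor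
  · rintro ⟨u, v, huv, hF⟩
    have hc : F.card ≤ 2 := (card_le_card hF).trans card_le_two
    rcases Nat.lt_or_ge F.card 2 with h1 | h1
    · exact Or.inl (by omega)
    · have hc2 : F.card = 2 := by omega
      rcases u with i | i <;> rcases v with j | j
      · exact Or.inr (Or.inl ⟨hc2, Or.inl (hF.trans (pairs _ _ _ (inl_mem_sA _ _ _)
          (inl_mem_sA _ _ _)))⟩)
      · obtain ⟨h2, h3⟩ : i.val = 0 ∧ j.val = 0 := huv
        have e1 : i = ⟨0, Nat.lt_of_lt_of_le Nat.zero_lt_two hn⟩ := Fin.ext h2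
        have e2 : j = ⟨0, Nat.lt_of_lt_of_le Nat.zero_lt_two hm⟩ := Fin.ext h3
        rw [e1, e2] at hF
        exact Or.inr (Or.inr (eq_of_subset_of_card_le hF (by rw [hc2]; exact card_le_two)))
      · obtain ⟨h2, h3⟩ : j.val = 0 ∧ i.val = 0 := huv
        have e1 : j = ⟨0, Nat.lt_of_lt_of_le Nat.zero_lt_two hn⟩ := Fin.ext h2
        have e2 : i = ⟨0, Nat.lt_of_lt_of_le Nat.zero_lt_two hm⟩ := Fin.ext h3
        rw [e1, e2, Finset.pair_comm] at hF
        exact Or.inr (Or.inr (eq_of_subset_of_card_le hF (by rw [hc2]; exact card_le_two)))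
      · exact Or.inr (Or.inl ⟨hc2, Or.inr (hF.trans (pairs _ _ _ (inr_mem_sB _ _ _)
          (inr_mem_sB _ _ _)))⟩)
  · rintro (h1 | ⟨h1, h2⟩ | h1)
    · rcases Nat.le_one_iff_eq_zero_or_eq_one.1 h1 with h0 | h0
      · rw [card_eq_zero] at h0
        subst h0
        obtain ⟨a, ha, hax⟩ := h.exA (Sum.inl ⟨0, by omega⟩)
        exact ⟨a, _, adjA a ha _ h.hx hax, empty_subset _⟩
      · rw [card_eq_one] at h0
        obtain ⟨w, rfl⟩ := h0
        rcases h.or w with hw | hw
        · obtain ⟨a, ha, haw⟩ := h.exA w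
          exact ⟨a, w, adjA a ha w hw haw, by simp⟩
        · obtain ⟨a, ha, haw⟩ := h.symm.exA w
          exact ⟨a, w, adjB a ha w hw haw, by simp⟩
    · obtain ⟨u, v, huv, rfl⟩ := card_eq_two.1 h1
      rcases h2 with h2 | h2
      · exact ⟨u, v, adjA u (h2 (by simp)) v (h2 (by simp)) huv, Subset.refl _⟩
      · exact ⟨u, v, adjB u (h2 (by simp)) v (h2 (by simp)) huv, Subset.refl _⟩
    · subst h1
      refine ⟨Sum.inl ⟨0, by omega⟩, Sum.inr ⟨0, by omega⟩, ?_, Subset.refl _⟩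
      exact And.intro rfl rfl

end dumb

/-- **Q1, affirmative.** For all `n, m ≥ 2` with `(n, m) ≠ (2, 2)` the NF-number of the dumbbell
graph `B_{n,m}` (the least `q > 0` such that the `q`-th iterated NF-complex is isomorphic to
`B_{n,m}`) exists and is `n + m + 2`, over any field. -/
theorem result (K : Type) [Field K] (n m : ℕ) (hn : 2 ≤ n) (hm : 2 ≤ m)
    (hnm : (n, m) ≠ (2, 2)) :
    IsLeast {q : ℕ | 0 < q ∧
      Iso ((nf K)^[q] (graphCpx (dumbbell n m))) (graphCpx (dumbbell n m))} (n + m + 2) := by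
  have hV : Fintype.card (Fin n ⊕ Fin m) = n + m := by simp
  have h5 : 5 ≤ n + m := by
    by_contra hc
    apply hnm
    have h1 : n = 2 := by omega
    have h2 : m = 2 := by omega
    rw [h1, h2]
  have := isLeast_of_I0 K (hyp_dumbbell n m hn hm) (dumbbell_I0 n m hn hm) (by rw [hV]; exact h5)
  rwa [hV] at this

end Pool.Agent.Results.MP_0a7d83_co.NFDumbbell
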